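import Pool.Agent.K1H49.PL.Gen

/-!
# Project PL, general case: unions of chains
-/

set_option autoImplicit false

namespace Pool.Agent.K1H99.PLG

open Pool.Agent.K1H49.PL

universe u

/-- the values of the long tree and of the family as one tuple -/
def VV {M : Type u} {ι K I : Type} (w : I → ι → M) (s : K → Nd → ι → M) :
    (I × ι) ⊕ (K × Nd × ι) → M :=
  Sum.elim (fun p => w p.1 p.2) (fun p => s p.1 p.2.1 p.2.2)

theorem VV_eta {M : Type u} {ι K I : Type} (v : (I × ι) ⊕ (K × Nd × ι) → M) :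
    VV (fun π i => v (Sum.inl (π, i))) (fun k ν i => v (Sum.inr (k, ν, i))) = v := by
  funext z
  rcases z with ⟨π, i⟩ | ⟨k, ν, i⟩ <;> rfl

theorem Rz_mono {M : Type u} {Y : Sys M} {X ι K I : Type} {lt : Bool → I → I → Prop} {x : X → M}
    {t : Option K → Nd → ι → M} {a : ℕ} {dg : K → ℕ} {F F' : FF M X ι K I a dg} (h : F ⊆ F')
    {w : I → ι → M} {s : K → Nd → ι → M} (hR : Rz Y lt x t F' w s) : Rz Y lt x t F w s :=
  ⟨hR.1, fun q hq => hR.2 q (h hq)⟩

theorem exists_top {α β : Type*} {C : Set (Set α)} (hC : IsChain (· ⊆ ·) C) (hne : C.Nonempty)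
    (Δ : Finset β) (g : β → Set α) (hg : ∀ b ∈ Δ, g b ∈ C) : ∃ F ∈ C, ∀ b ∈ Δ, g b ⊆ F := by
  classical
  induction Δ using Finset.induction_on with
  | empty =>
    obtain ⟨F, hF⟩ := hne
    exact ⟨F, hF, by simp⟩
  | insert b Δ hb ih =>
    obtain ⟨F, hF, h⟩ := ih (fun c hc => hg c (Finset.mem_insert_of_mem hc))
    have hb' := hg b (Finset.mem_insert_self b Δ)
    rcases hC.total hF hb' with h1 | h1
    · refine ⟨g b, hb', fun c hc => ?_⟩
      rcases Finset.mem_insert.1 hc with rfl | hc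
      · exact subset_rfl
      · exact (h c hc).trans h1
    · refine ⟨F, hF, fun c hc => ?_⟩
      rcases Finset.mem_insert.1 hc with rfl | hc
      · exact h1
      · exact h c hc

/-- **Unions of chains.** -/
theorem t_CHN : S_CHN.{u} := by
  intro M Y hsat X ι K I _ _ lt x t a dg C hC hne hG
  refine ⟨?_, ?_, ?_, ?_⟩
  · rintro q ⟨F, hF, hq⟩ q' ⟨F', hF', hq'⟩ h
    rcases hC.total hF hF' with h1 | h1
    · exact (hG F' hF').fn q (h1 hq) q' hq' h
    · exact (hG F hF).fn q hq q' (h1 hq') h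
  · rintro q ⟨F, hF, hq⟩
    exact (hG F hF).tp q hq
  · rintro q ⟨F, hF, hq⟩ ρ d h
    obtain ⟨θ, hθ⟩ := (hG F hF).dn q hq ρ d h
    exact ⟨θ, F, hF, hθ⟩
  · let Γ : Set (Set (X ⊕ ((I × ι) ⊕ (K × Nd × ι)) → M)) :=
      {T | Y.D T ∧ ∃ F ∈ C, ∀ w s, Rz Y lt x t F w s → Sum.elim x (VV w s) ∈ T}
    obtain ⟨v, hv⟩ := hsat X ((I × ι) ⊕ (K × Nd × ι)) x Γ (fun S hS => hS.1) (by
      intro Δ hΔ
      classical
      have h1 : ∀ T : Set (X ⊕ ((I × ι) ⊕ (K × Nd × ι)) → M), ∃ F, T ∈ Δ →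
          F ∈ C ∧ ∀ w s, Rz Y lt x t F w s → Sum.elim x (VV w s) ∈ T := by
        intro T
        by_cases hT : T ∈ Δ
        · obtain ⟨F, hF, h⟩ := (hΔ T hT).2
          exact ⟨F, fun _ => ⟨hF, h⟩⟩
        · exact ⟨∅, fun h => absurd h hT⟩
      choose g hg using h1
      obtain ⟨F, hF, hF'⟩ := exists_top hC hne Δ g (fun T hT => (hg T hT).1)
      obtain ⟨w, s, hR⟩ := (hG F hF).cons
      exact ⟨VV w s, fun T hT => (hg T hT).2 w s (Rz_mono (hF' T hT) hR)⟩)
    refine ⟨fun π i => v (Sum.inl (π, i)), fun k ν i => v (Sum.inr (k, ν, i)), ?_, ?_⟩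
    · intro n S hS hH E0 E hE0 hE
      obtain ⟨F0, hF0⟩ := hne
      let j : X ⊕ (Option K × LN n × ι) → X ⊕ ((I × ι) ⊕ (K × Nd × ι)) :=
        Sum.elim Sum.inl (fun p => p.1.elim (Sum.inr (Sum.inl (E0 p.2.1, p.2.2)))
          (fun k => Sum.inr (Sum.inr (k, E k p.2.1, p.2.2))))
      have hj : ∀ (w : I → ι → M) (s : K → Nd → ι → M), (Sum.elim x (VV w s)) ∘ j =
          Sum.elim x (fun p => p.1.elim (w (E0 p.2.1) p.2.2) (fun k => s k (E k p.2.1) p.2.2)) := by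
        intro w s
        funext z
        rcases z with z | ⟨o, η, i⟩
        · rfl
        · cases o <;> rfl
      have hT : {u | u ∘ j ∈ S} ∈ Γ := ⟨Y.pull j hS, F0, hF0, fun w s hR => by
        change Sum.elim x (VV w s) ∘ j ∈ S
        rw [hj]
        exact hR.1 n S hS hH E0 E hE0 hE⟩
      have h3 : (Sum.elim x v) ∘ j ∈ S := hv _ hT
      rw [← VV_eta v, hj] at h3
      exact h3
    · rintro q ⟨F, hF, hq⟩ E0 E hE0 hE hrt S hS
      have hD : Y.D S := by
        obtain ⟨v0, hv0⟩ := (hG F hF).tp q hq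
        have hS' := hS
        rw [hv0] at hS'
        exact hS'.1
      let j : X ⊕ ((Σ k, LN (dgo a dg k)) × ι) → X ⊕ ((I × ι) ⊕ (K × Nd × ι)) :=
        Sum.elim Sum.inl (fun p => match p with
          | (⟨none, η⟩, i) => Sum.inr (Sum.inl (E0 η, i))
          | (⟨some k, η⟩, i) => Sum.inr (Sum.inr (k, E k η, i)))
      have hj : ∀ (w : I → ι → M) (s : K → Nd → ι → M), (Sum.elim x (VV w s)) ∘ j =
          tpx x w s E0 E := by
        intro w s
        funext z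
        rcases z with z | ⟨⟨o, η⟩, i⟩
        · rfl
        · cases o <;> rfl
      have hT : {u | u ∘ j ∈ S} ∈ Γ := ⟨Y.pull j hD, F, hF, fun w s hR => by
        change Sum.elim x (VV w s) ∘ j ∈ S
        rw [hj]
        exact hR.2 q hq E0 E hE0 hE hrt S hS⟩
      have h3 : (Sum.elim x v) ∘ j ∈ S := hv _ hT
      rw [← VV_eta v, hj] at h3
      exact h3

end Pool.Agent.K1H99.PLG
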