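import Pool.Agent.K1H99.PLG.CHN

/-!
# Project PL, general case: extension by one position
-/

set_option autoImplicit false

namespace Pool.Agent.K1H99.PLG

open Pool.Agent.K1H49.PL

universe u

/-- extension of a map of `LN a` to all nodes -/
def exn (a : ℕ) (E : LN a → Nd) (η : Nd) : Nd :=
  E ⟨η.take a, by rw [List.length_take]; exact Nat.min_le_left _ _⟩ ++ η.drop a

theorem exn_of_le {a : ℕ} (E : LN a → Nd) (η : LN a) : exn a E η.1 = E η := by
  unfold exn
  have h1 : η.1.take a = η.1 := List.take_of_length_le η.2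
  have h2 : η.1.drop a = [] := List.drop_eq_nil_of_le η.2
  rw [h2, List.append_nil]
  congr 1
  exact Subtype.ext h1

theorem exn_pt {a : ℕ} (E : LN a → Nd) (hE : Pt ndl a E) (η η' : Nd) (d : Bool)
    (h : (η ++ [d]) <+: η') : ndl d (exn a E η) (exn a E η') := by
  rcases Nat.lt_or_ge η.length a with hl | hl
  · have h1 : exn a E η = E ⟨η, hl.le⟩ := exn_of_le E ⟨η, hl.le⟩
    rw [h1]
    have hlen : (η'.take a).length ≤ a := by rw [List.length_take]; exact Nat.min_le_left _ _
    have h2 : ndl d (E ⟨η, hl.le⟩) (E ⟨η'.take a, hlen⟩) := by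
      refine hE _ _ d ?_
      exact List.prefix_take_iff.2 ⟨h, by simpa using hl⟩
    exact List.IsPrefix.trans h2 (List.prefix_append _ _)
  · obtain ⟨r, rfl⟩ := h
    unfold exn ndl
    have h1 : (η ++ [d] ++ r).take a = η.take a := by
      rw [List.append_assoc, List.take_append_of_le_length hl]
    have h2 : (η ++ [d] ++ r).drop a = η.drop a ++ [d] ++ r := by
      rw [List.append_assoc, List.drop_append_of_le_length hl, List.append_assoc]
    rw [h2]
    simp only [h1]
    exact ⟨r, by simp [List.append_assoc]⟩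

section core

variable {I : Type} {lt : Bool → I → I → Prop}

theorem irr (hB : BT lt) (d : Bool) (a : I) : ¬ lt d a a := fun h =>
  hB.wf.irrefl.irrefl a ⟨d, h⟩

theorem outside (hB : BT lt) {π ρ ρ' c : I} {d d' : Bool} (h1 : ¬ lt d π ρ) (h2 : lt d' ρ ρ')
    (h3 : lt d π ρ') (h4 : lt d π c) : lt d' ρ c := by
  rcases hB.lin h2 h3 with h | ⟨e, h⟩ | ⟨e, h⟩
  · subst h
    rw [hB.uniq h2 h3]
    exact h4
  · have h5 := hB.trans h h3
    rw [hB.uniq h2 h5]
    exact hB.trans h h4
  · have h5 := hB.trans h h2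
    exact absurd (hB.uniq h3 h5 ▸ h) h1

open Classical in
/-- the modified pattern -/
noncomputable def mdf (lt : Bool → I → I → Prop) (π : I) (C0 C1 : Nd → I) {a N : ℕ} (haN : a ≤ N)
    (E0 : LN a → I) (e0 e1 : LN N → Nd) (η : LN a) : I :=
  if lt false π (E0 η) then C0 (e0 ⟨η.1, η.2.trans haN⟩)
  else if lt true π (E0 η) then C1 (e1 ⟨η.1, η.2.trans haN⟩) else E0 η

theorem mdf_pt (hB : BT lt) (π : I) (C0 C1 : Nd → I) (hC0 : Cpy lt C0) (hC1 : Cpy lt C1)
    (h0 : ∀ ν, lt false π (C0 ν)) (h1 : ∀ ν, lt true π (C1 ν)) {a N : ℕ} (haN : a ≤ N)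
    (E0 : LN a → I) (hE0 : Pt lt a E0) (e0 e1 : LN N → Nd) (he0 : Pt ndl N e0)
    (he1 : Pt ndl N e1) : Pt lt a (mdf lt π C0 C1 haN E0 e0 e1) := by
  classical
  intro η η' d h
  have hl := hE0 η η' d h
  unfold mdf
  by_cases a1 : lt false π (E0 η)
  · have b1 := hB.trans a1 hl
    rw [if_pos a1, if_pos b1]
    exact hC0 _ _ _ (he0 _ _ d h)
  · rw [if_neg a1]
    by_cases a2 : lt true π (E0 η)
    · have b2 := hB.trans a2 hl
      have b1 : ¬ lt false π (E0 η') := fun b => by
        have := hB.uniq b b2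
        exact absurd this (by decide)
      rw [if_pos a2, if_neg b1, if_pos b2]
      exact hC1 _ _ _ (he1 _ _ d h)
    · rw [if_neg a2]
      by_cases b1 : lt false π (E0 η')
      · rw [if_pos b1]
        exact outside hB a1 hl b1 (h0 _)
      · rw [if_neg b1]
        by_cases b2 : lt true π (E0 η')
        · rw [if_pos b2]
          exact outside hB a2 hl b2 (h1 _)
        · rw [if_neg b2]
          exact hl

end core

section main

variable {M : Type u} {X ι K I : Type}

open Classical in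
/-- the new long tree -/
noncomputable def nw (lt : Bool → I → I → Prop) (π : I) (w : I → ι → M)
    (u : Option (Option K) → Nd → ι → M) (g : I → Nd) (ρ : I) : ι → M :=
  if lt false π ρ then u none (g ρ) else if lt true π ρ then u (some none) (g ρ) else w ρ

/-- the family of trees above `π` -/
def TT (w : I → ι → M) (s : K → Nd → ι → M) (C0 C1 : Nd → I) : Option (Option K) → Nd → ι → M
  | none => fun ν => w (C0 ν)
  | some none => fun ν => w (C1 ν)
  | some (some k) => s k

/-- the tuple -/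
def tq {a N : ℕ} (x : X → M) (w : I → ι → M) (s : K → Nd → ι → M) (E0 : LN a → I)
    (E : K → LN N → Nd) : X ⊕ ((LN a × ι) ⊕ (K × LN N × ι)) → M :=
  Sum.elim x (Sum.elim (fun p => w (E0 p.1) p.2) (fun p => s p.1 (E p.1 p.2.1) p.2.2))

theorem core (Y : Sys M) (lt : Bool → I → I → Prop) (hB : BT lt) (π : I) (C0 C1 : Nd → I)
    (hC0 : Cpy lt C0) (hC1 : Cpy lt C1)
    (h0 : ∀ ν, lt false π (C0 ν)) (h1 : ∀ ν, lt true π (C1 ν)) (x : X → M) (w : I → ι → M)
    (s : K → Nd → ι → M) (u : Option (Option K) → Nd → ι → M)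
    (hu : ∀ (n : ℕ) (S : Set ((X ⊕ (I × ι)) ⊕ (Option (Option K) × LN n × ι) → M)), Y.D S →
      HK (Sum.elim x (fun p : I × ι => w p.1 p.2)) (TT w s C0 C1) n S →
      HK (Sum.elim x (fun p : I × ι => w p.1 p.2)) u n S)
    {a N : ℕ} (haN : a ≤ N) (S : Set (X ⊕ ((LN a × ι) ⊕ (K × LN N × ι)) → M)) (hS : Y.D S)
    (E0 : LN a → I) (hE0 : Pt lt a E0) (E : K → LN N → Nd) (hE : ∀ k, Pt ndl N (E k))
    (H : ∀ E0' : LN a → I, Pt lt a E0' → ((∀ d, ¬ lt d π (E0 (rt a))) → E0' (rt a) = E0 (rt a)) →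
      ∀ E' : K → LN N → Nd, (∀ k, Pt ndl N (E' k)) → tq x w s E0' E' ∈ S)
    (g : I → Nd) (hg : ∀ η η' d, lt d (E0 η) (E0 η') → (g (E0 η) ++ [d]) <+: g (E0 η')) :
    tq x (nw lt π w u g) (fun k => u (some (some k))) E0 E ∈ S := by
  classical
  let j : X ⊕ ((LN a × ι) ⊕ (K × LN N × ι)) → (X ⊕ (I × ι)) ⊕ (Option (Option K) × LN N × ι) :=
    Sum.elim (fun a' => Sum.inl (Sum.inl a')) (Sum.elim
      (fun p => if lt false π (E0 p.1) then Sum.inr (none, ⟨p.1.1, p.1.2.trans haN⟩, p.2)
        else if lt true π (E0 p.1) then Sum.inr (some none, ⟨p.1.1, p.1.2.trans haN⟩, p.2)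
        else Sum.inl (Sum.inr (E0 p.1, p.2)))
      (fun p => Sum.inr (some (some p.1), p.2.1, p.2.2)))
  have hHK : HK (Sum.elim x (fun p : I × ι => w p.1 p.2)) (TT w s C0 C1) N {v | v ∘ j ∈ S} := by
    intro E'' hE''
    have h2 := H (mdf lt π C0 C1 haN E0 (E'' none) (E'' (some none)))
      (mdf_pt hB π C0 C1 hC0 hC1 h0 h1 haN E0 hE0 _ _ (hE'' _) (hE'' _))
      (fun h => by
        unfold mdf
        rw [if_neg (h false), if_neg (h true)])
      (fun k => E'' (some (some k))) (fun k => hE'' _)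
    change (_ ∘ j) ∈ S
    convert h2 using 1
    funext z
    rcases z with z | ⟨η, i⟩ | ⟨k, η, i⟩
    · rfl
    · simp only [Function.comp, j, tq, mdf, Sum.elim_inl, Sum.elim_inr]
      by_cases a1 : lt false π (E0 η)
      · simp only [if_pos a1, Sum.elim_inr]
        rfl
      · by_cases a2 : lt true π (E0 η)
        · simp only [if_neg a1, if_pos a2, Sum.elim_inr]
          rfl
        · simp only [if_neg a1, if_neg a2, Sum.elim_inl, Sum.elim_inr]
    · rfl
  have h3 := hu N _ (Y.pull j hS) hHK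
  let e : LN N → Nd := fun η => exn a (fun ν => g (E0 ν)) η.1
  have he : Pt ndl N e := fun η η' d h =>
    exn_pt (fun ν => g (E0 ν)) (fun ν ν' d' h' => hg ν ν' d' (hE0 ν ν' d' h')) η.1 η'.1 d h
  let EE : Option (Option K) → LN N → Nd := fun o => match o with
    | none => e
    | some none => e
    | some (some k) => E k
  have h4 := h3 EE (by
    intro o
    rcases o with _ | _ | k
    · exact he
    · exact he
    · exact hE k)
  have h5 : (Sum.elim (Sum.elim x (fun p : I × ι => w p.1 p.2))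
    (fun p : Option (Option K) × LN N × ι => u p.1 (EE p.1 p.2.1) p.2.2)) ∘ j ∈ S := h4
  convert h5 using 1
  funext z
  rcases z with z | ⟨η, i⟩ | ⟨k, η, i⟩
  · rfl
  · have h6 : e ⟨η.1, η.2.trans haN⟩ = g (E0 η) := exn_of_le (fun ν => g (E0 ν)) η
    simp only [Function.comp, j, tq, nw, Sum.elim_inl, Sum.elim_inr]
    by_cases a1 : lt false π (E0 η)
    · simp only [if_pos a1, Sum.elim_inr]
      change _ = u none (e ⟨η.1, η.2.trans haN⟩) i
      rw [h6]
    · by_cases a2 : lt true π (E0 η)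
      · simp only [if_neg a1, if_pos a2, Sum.elim_inr]
        change _ = u (some none) (e ⟨η.1, η.2.trans haN⟩) i
        rw [h6]
      · simp only [if_neg a1, if_neg a2, Sum.elim_inl, Sum.elim_inr]
  · rfl

end main

section fin

theorem finite_LN (n : ℕ) : Finite (LN n) := (List.finite_length_le Bool n).to_subtype

theorem exists_N {K : Type} [Finite K] (a : ℕ) (dg : K → ℕ) : ∃ N, a ≤ N ∧ ∀ k, dg k ≤ N := by
  obtain ⟨b, hb⟩ := (Set.finite_range dg).bddAbove
  exact ⟨max a b, le_max_left _ _, fun k => (hb ⟨k, rfl⟩).trans (le_max_right _ _)⟩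

end fin

section asm

variable {M : Type u} {X ι K I : Type}

/-- the map of the variables of the new type -/
def jth (π : I) (m : ℕ) (dg : K → ℕ) : X ⊕ ((Σ k, LN (dgo (m + 1) dg k)) × ι) →
    (X ⊕ (I × ι)) ⊕ ((Σ k, LN (dgo m (dgo m dg) k)) × ι)
  | Sum.inl z => Sum.inl (Sum.inl z)
  | Sum.inr (⟨none, ⟨[], _⟩⟩, i) => Sum.inl (Sum.inr (π, i))
  | Sum.inr (⟨none, ⟨false :: η, h⟩⟩, i) => Sum.inr (⟨none, ⟨η, Nat.le_of_succ_le_succ h⟩⟩, i)
  | Sum.inr (⟨none, ⟨true :: η, h⟩⟩, i) => Sum.inr (⟨some none, ⟨η, Nat.le_of_succ_le_succ h⟩⟩, i)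
  | Sum.inr (⟨some k, η⟩, i) => Sum.inr (⟨some (some k), η⟩, i)

/-- **Extension by one position.** -/
theorem t_EXN : S_EXN.{u} := by
  classical
  intro M Y hsat hec X ι K I _ _ lt hB x t m dg hPH F hF π hπ hdn
  obtain ⟨w, s, hR⟩ := hF.cons
  obtain ⟨C0, hC0, h0⟩ := hB.cp π false
  obtain ⟨C1, hC1, h1⟩ := hB.cp π true
  obtain ⟨u, hu, hb⟩ := hPH (X ⊕ (I × ι)) (Sum.elim x (fun p : I × ι => w p.1 p.2)) (TT w s C0 C1)
  let vθ : X ⊕ ((Σ k, LN (dgo (m + 1) dg k)) × ι) → M :=
    tpl (Sum.elim x (fun p : I × ι => w p.1 p.2)) u (fun k η => η.1) ∘ jth π m dg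
  let θ : Set (Set (X ⊕ ((Σ k, LN (dgo (m + 1) dg k)) × ι) → M)) := {S | Y.D S ∧ vθ ∈ S}
  have hθ : ∀ S ∈ θ, ∀ E : ∀ k, LN (dgo m (dgo m dg) k) → Nd, (∀ k, Pt ndl _ (E k)) →
      tpl (Sum.elim x (fun p : I × ι => w p.1 p.2)) u E ∘ jth π m dg ∈ S := by
    intro S hS E hE
    exact hb {v | v ∘ jth π m dg ∈ S} (Y.pull _ hS.1) (fun k η => η.1) E (fun k η η' d h => h) hE hS.2
  have habove : ∀ q ∈ F, ∀ d, ¬ lt d π q.1 := by
    intro q hq d h
    obtain ⟨θ', hθ'⟩ := hF.dn q hq π d h
    exact hπ θ' hθ'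
  refine ⟨θ, ?_, ?_, ?_, ?_⟩
  · rintro q (rfl | hq) q' (rfl | hq') h
    · rfl
    · exact absurd (show (π, q'.2) ∈ F by rw [show (π, q'.2) = q' from Prod.ext h rfl]; exact hq') (hπ _)
    · exact absurd (show (π, q.2) ∈ F by rw [show (π, q.2) = q from Prod.ext h.symm rfl]; exact hq) (hπ _)
    · exact hF.fn q hq q' hq' h
  · rintro q (rfl | hq)
    · exact ⟨vθ, rfl⟩
    · exact hF.tp q hq
  · rintro q (rfl | hq) ρ d h
    · obtain ⟨θ', hθ'⟩ := hdn ρ d h
      exact ⟨θ', Or.inr hθ'⟩
    · obtain ⟨θ', hθ'⟩ := hF.dn q hq ρ d h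
      exact ⟨θ', Or.inr hθ'⟩
  · let s' : K → Nd → ι → M := fun k => u (some (some k))
    let Γ : Set (Set (X ⊕ ((I × ι) ⊕ (K × Nd × ι)) → M)) :=
      {T | Y.D T ∧ ∃ P : Finset I, ∀ g : I → Nd,
        (∀ a ∈ P, ∀ b ∈ P, ∀ d, lt d a b → (g a ++ [d]) <+: g b) →
        Sum.elim x (VV (nw lt π w u g) s') ∈ T}
    obtain ⟨v, hv⟩ := hsat X ((I × ι) ⊕ (K × Nd × ι)) x Γ (fun S hS => hS.1) (by
      intro Δ hΔ
      have h2 : ∀ T : Set (X ⊕ ((I × ι) ⊕ (K × Nd × ι)) → M), ∃ P : Finset I, T ∈ Δ →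
          ∀ g : I → Nd, (∀ a ∈ P, ∀ b ∈ P, ∀ d, lt d a b → (g a ++ [d]) <+: g b) →
          Sum.elim x (VV (nw lt π w u g) s') ∈ T := by
        intro T
        by_cases hT : T ∈ Δ
        · obtain ⟨P, h⟩ := (hΔ T hT).2
          exact ⟨P, fun _ => h⟩
        · exact ⟨∅, fun h => absurd h hT⟩
      choose P hP using h2
      obtain ⟨g, hg⟩ := hB.fe (Δ.biUnion P)
      refine ⟨VV (nw lt π w u g) s', fun T hT => hP T hT g ?_⟩
      intro a ha b hb' d hab
      exact hg a (Finset.mem_biUnion.2 ⟨T, hT, ha⟩) b (Finset.mem_biUnion.2 ⟨T, hT, hb'⟩) d hab)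
    -- conditions with patterns of height `a` in the long tree
    have key : ∀ {a N : ℕ} (haN : a ≤ N) (S : Set (X ⊕ ((LN a × ι) ⊕ (K × LN N × ι)) → M)),
        Y.D S → ∀ (E0 : LN a → I), Pt lt a E0 → ∀ (E : K → LN N → Nd),
        (∀ k, Pt ndl N (E k)) →
        (∀ E0' : LN a → I, Pt lt a E0' →
          ((∀ d, ¬ lt d π (E0 (rt a))) → E0' (rt a) = E0 (rt a)) →
          ∀ E' : K → LN N → Nd, (∀ k, Pt ndl N (E' k)) → tq x w s E0' E' ∈ S) →
        tq x (fun ρ i => v (Sum.inl (ρ, i))) (fun k ν i => v (Sum.inr (k, ν, i))) E0 E ∈ S := by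
      intro a N haN S hS E0 hE0 E hE H
      haveI := finite_LN a
      let j : X ⊕ ((LN a × ι) ⊕ (K × LN N × ι)) → X ⊕ ((I × ι) ⊕ (K × Nd × ι)) :=
        Sum.elim Sum.inl (Sum.elim (fun p => Sum.inr (Sum.inl (E0 p.1, p.2)))
          (fun p => Sum.inr (Sum.inr (p.1, E p.1 p.2.1, p.2.2))))
      have hj : ∀ (w : I → ι → M) (s : K → Nd → ι → M), (Sum.elim x (VV w s)) ∘ j =
          tq x w s E0 E := by
        intro w s
        funext z
        rcases z with z | ⟨η, i⟩ | ⟨k, η, i⟩ <;> rfl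
      have hT : {v | v ∘ j ∈ S} ∈ Γ := by
        refine ⟨Y.pull j hS, (Set.finite_range E0).toFinset, fun g hg => ?_⟩
        change Sum.elim x (VV (nw lt π w u g) s') ∘ j ∈ S
        rw [hj]
        refine core Y lt hB π C0 C1 hC0 hC1 h0 h1 x w s u hu haN S hS E0 hE0 E hE H g ?_
        intro η η' d h
        exact hg _ (by simp) _ (by simp) d h
      have h3 : (Sum.elim x v) ∘ j ∈ S := hv _ hT
      rw [← VV_eta v, hj] at h3
      exact h3
    refine ⟨fun ρ i => v (Sum.inl (ρ, i)), fun k ν i => v (Sum.inr (k, ν, i)), ?_, ?_⟩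
    · intro n S hS hH E0 E hE0 hE
      let j : X ⊕ (Option K × LN n × ι) → X ⊕ ((LN n × ι) ⊕ (K × LN n × ι)) :=
        Sum.elim Sum.inl (fun p => p.1.elim (Sum.inr (Sum.inl (p.2.1, p.2.2)))
          (fun k => Sum.inr (Sum.inr (k, p.2.1, p.2.2))))
      have hj : ∀ (w : I → ι → M) (s : K → Nd → ι → M) (E0 : LN n → I) (E : K → LN n → Nd),
          tq x w s E0 E ∘ j =
          Sum.elim x (fun p => p.1.elim (w (E0 p.2.1) p.2.2) (fun k => s k (E k p.2.1) p.2.2)) := by
        intro w s E0 E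
        funext z
        rcases z with z | ⟨o, η, i⟩
        · rfl
        · cases o <;> rfl
      have h3 := key (le_refl n) {v | v ∘ j ∈ S} (Y.pull j hS) E0 hE0 E hE (by
        intro E0' hE0' _ E' hE'
        change tq x w s E0' E' ∘ j ∈ S
        rw [hj]
        exact hR.1 n S hS hH E0' E' hE0' hE')
      have h4 : tq x (fun ρ i => v (Sum.inl (ρ, i))) (fun k ν i => v (Sum.inr (k, ν, i))) E0 E ∘ j ∈ S :=
        h3
      rw [hj] at h4
      exact h4
    · rintro q (rfl | hq) E0 E hE0 hE hrt S hS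
      · -- the new type
        haveI := finite_LN (m + 1)
        let j : X ⊕ ((Σ k, LN (dgo (m + 1) dg k)) × ι) → X ⊕ ((I × ι) ⊕ (K × Nd × ι)) :=
          Sum.elim Sum.inl (fun p => match p with
            | (⟨none, η⟩, i) => Sum.inr (Sum.inl (E0 η, i))
            | (⟨some k, η⟩, i) => Sum.inr (Sum.inr (k, E k η, i)))
        have hj : ∀ (w : I → ι → M) (s : K → Nd → ι → M), (Sum.elim x (VV w s)) ∘ j =
            tpx x w s E0 E := by
          intro w s
          funext z
          rcases z with z | ⟨⟨o, η⟩, i⟩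
          · rfl
          · cases o <;> rfl
        have hT : {v | v ∘ j ∈ S} ∈ Γ := by
          refine ⟨Y.pull j hS.1, (Set.finite_range E0).toFinset, fun g hg => ?_⟩
          change Sum.elim x (VV (nw lt π w u g) s') ∘ j ∈ S
          rw [hj]
          have hrt' : E0 (rt (m + 1)) = π := hrt
          let EE : ∀ k, LN (dgo m (dgo m dg) k) → Nd := fun k => match k with
            | none => fun η => g (E0 ⟨false :: η.1, Nat.succ_le_succ η.2⟩)
            | some none => fun η => g (E0 ⟨true :: η.1, Nat.succ_le_succ η.2⟩)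
            | some (some k) => E k
          have h3 := hθ S hS EE (by
            intro k
            rcases k with _ | _ | k
            · intro η η' d h
              refine hg _ (by simp) _ (by simp) d (hE0 _ _ d ?_)
              exact (List.cons_prefix_cons.2 ⟨rfl, h⟩ : (false :: (η.1 ++ [d])) <+: (false :: η'.1))
            · intro η η' d h
              refine hg _ (by simp) _ (by simp) d (hE0 _ _ d ?_)
              exact (List.cons_prefix_cons.2 ⟨rfl, h⟩ : (true :: (η.1 ++ [d])) <+: (true :: η'.1))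
            · exact hE k)
          convert h3 using 1
          funext z
          rcases z with z | ⟨⟨o, η⟩, i⟩
          · rfl
          · rcases o with _ | k
            · obtain ⟨η, hη⟩ := η
              rcases η with _ | ⟨b, η⟩
              · change nw lt π w u g (E0 (rt (m + 1))) i = w π i
                rw [hrt']
                unfold nw
                rw [if_neg (irr hB false π), if_neg (irr hB true π)]
              · have h4 : lt b π (E0 ⟨b :: η, hη⟩) := by
                  rw [← hrt']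
                  exact hE0 (rt (m + 1)) ⟨b :: η, hη⟩ b ⟨η, rfl⟩
                cases b
                · change nw lt π w u g (E0 ⟨false :: η, hη⟩) i = u none (g (E0 ⟨false :: η, _⟩)) i
                  unfold nw
                  rw [if_pos h4]
                · change nw lt π w u g (E0 ⟨true :: η, hη⟩) i = u (some none) (g (E0 ⟨true :: η, _⟩)) i
                  unfold nw
                  have h5 : ¬ lt false π (E0 ⟨true :: η, hη⟩) := fun h => by
                    have := hB.uniq h h4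
                    exact absurd this (by decide)
                  rw [if_neg h5, if_pos h4]
            · rfl
        have h3 : (Sum.elim x v) ∘ j ∈ S := hv _ hT
        rw [← VV_eta v, hj] at h3
        exact h3
      · -- an old type
        have hD : Y.D S := by
          obtain ⟨v0, hv0⟩ := hF.tp q hq
          have hS' := hS
          rw [hv0] at hS'
          exact hS'.1
        obtain ⟨N, hN, hN'⟩ := exists_N (m + 1) dg
        let j : X ⊕ ((Σ k, LN (dgo (m + 1) dg k)) × ι) → X ⊕ ((LN (m + 1) × ι) ⊕ (K × LN N × ι)) :=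
          Sum.elim Sum.inl (fun p => match p with
            | (⟨none, η⟩, i) => Sum.inr (Sum.inl (η, i))
            | (⟨some k, η⟩, i) => Sum.inr (Sum.inr (k, ⟨η.1, le_trans η.2 (hN' k)⟩, i)))
        have hj : ∀ (w : I → ι → M) (s : K → Nd → ι → M) (E0 : LN (m + 1) → I)
            (E : K → LN N → Nd), tq x w s E0 E ∘ j =
            tpx x w s E0 (fun k (η : LN (dg k)) => E k ⟨η.1, le_trans η.2 (hN' k)⟩) := by
          intro w s E0 E
          funext z
          rcases z with z | ⟨⟨o, η⟩, i⟩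
          · rfl
          · cases o <;> rfl
        have h3 := key hN {v | v ∘ j ∈ S} (Y.pull j hD) E0 hE0
          (fun k (η : LN N) => exn (dg k) (E k) η.1)
          (fun k η η' d h => exn_pt (E k) (hE k) η.1 η'.1 d h) (by
          intro E0' hE0' hr E' hE'
          change tq x w s E0' E' ∘ j ∈ S
          rw [hj]
          refine hR.2 q hq E0' _ hE0' (fun k η η' d h => hE' k _ _ d h) ?_ S hS
          rw [hr (fun d => by rw [hrt]; exact habove q hq d), hrt])
        have h4 : tq x (fun ρ i => v (Sum.inl (ρ, i))) (fun k ν i => v (Sum.inr (k, ν, i))) E0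
            (fun k (η : LN N) => exn (dg k) (E k) η.1) ∘ j ∈ S := h3
        rw [hj] at h4
        have h5 : (fun k (η : LN (dg k)) => exn (dg k) (E k) η.1) = E := by
          funext k η
          exact exn_of_le (E k) η
        simp only [h5] at h4
        exact h4

end asm

end Pool.Agent.K1H99.PLG
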